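import Mathlib
import Pool.Agent.H73.G.R8.Y119.PG.PlcMain
import Pool.Agent.H73.G.R8.Y685.E1J

/-!
# Analytic families of lattices: analyticity of the attached functions
-/

set_option autoImplicit false

open Filter Topology Set
open scoped PeriodPair

noncomputable section

namespace Pool.Agent.Y776.Fam

open H667R3 Pool.Agent.W245.EB Pool.Agent.Y685 Pool.Agent.Y685.H2

/-- the zeros of a nonzero analytic function are countable -/
theorem countable_zeros {U : Set ℂ} (hc : IsPreconnected U) {f : ℂ → ℂ}
    (hf : AnalyticOnNhd ℂ f U) (hne : ∃ z ∈ U, f z ≠ 0) : {z | z ∈ U ∧ f z = 0}.Countable := by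
  apply (HereditarilyLindelofSpace.isLindelof _).countable_of_isDiscrete
  rw [isDiscrete_iff_nhdsNE]
  intro c hcU
  rw [← _root_.disjoint_iff, Filter.disjoint_principal_right]
  rcases (hf c hcU.1).eventually_eq_zero_or_eventually_ne_zero with h | h
  · exfalso
    obtain ⟨z, hz, hne⟩ := hne
    exact hne (hf.eqOn_zero_of_preconnected_of_eventuallyEq_zero hc hcU.1 h hz)
  · filter_upwards [h] with x hx hx2
    exact hx hx2.2

variable {U : Set ℂ} {Λ : ℂ → PeriodPair}

end Pool.Agent.Y776.Fam
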