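import Mathlib
import Pool.Agent.H73.G.R8.Y119.PG.PlcMain
import Pool.Agent.H73.G.R8.Y685.E1J
import Pool.Agent.H73.G.R8.Y776.Fin

/-!
# Logarithms of the sigma function: the rank over the constants
-/

set_option autoImplicit false

open Finset Module
open scoped Topology PeriodPair

noncomputable section

namespace Pool.Agent.Y776.Fam

open H667R3 Pool.Agent.W245.EB Pool.Agent.TH813.Ell Pool.Agent.Y685 Pool.Agent.Y776
open Pool.Agent.TH813.Rel (DF MK exists_derF mem_cl subset_cl rk_le_of_subset_cl)

variable {L : PeriodPair} {D δ δ' : Derivation ℚ ℂ ℂ} {r s q : ℕ}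

/-- a family is independent if its rank is maximal -/
theorem indep_of_rank {k : Type} [Field k] [Algebra k ℂ] {ι : Type} [Fintype ι] {x : ι → ℂ}
    (h : ((Fintype.card ι : ℕ) : ℕ∞) ≤ (MK k).eRk (Set.range x)) : AlgebraicIndependent k x := by
  classical
  have hfin : (Set.range x).Finite := Set.finite_range x
  have h1 : (Set.range x).encard ≤ (Fintype.card ι : ℕ) := by
    rw [← Set.image_univ]
    refine (Set.encard_image_le _ _).trans ?_
    rw [Set.encard_univ, ENat.card_eq_coe_fintype_card]
  have h2 : (MK k).eRk (Set.range x) ≤ (Set.range x).encard := (MK k).eRk_le_encard _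
  have h3 : (MK k).eRk (Set.range x) = (Set.range x).encard := le_antisymm h2 (h1.trans h)
  have h4 : (MK k).Indep (Set.range x) :=
    (Matroid.indep_iff_eRk_eq_encard_of_finite hfin).2 h3
  have h5 : Function.Injective x := by
    have h6 : (Set.range x).encard = (Fintype.card ι : ℕ) := le_antisymm h1 (h.trans h2)
    rw [← Set.image_univ] at h6
    have h7 := Set.Finite.injOn_of_encard_image_eq (s := (Set.univ : Set ι)) (f := x)
      Set.finite_univ (by
      rw [h6, Set.encard_univ, ENat.card_eq_coe_fintype_card])
    exact Set.injOn_univ.1 h7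
  rw [AlgebraicIndependent.matroid_indep_iff] at h4
  exact (algebraicIndependent_subtype_range h5).1 h4

variable {h : Nrm L D} {t : Fin s → ℂ} {p : Fin r → ℂ}

namespace IsD

variable {i j : Fin r} {w w' : ℂ}

end IsD

end Pool.Agent.Y776.Fam
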