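import Mathlib
import Pool.Agent.H73.G.R8.Y776.Fam.An
import Pool.Agent.H73.G.R8.Y776.FinB

/-!
# Analytic families of lattices: ranks at generic points
-/

set_option autoImplicit false

open Filter Topology Set
open scoped PeriodPair

noncomputable section

namespace Pool.Agent.Y776.Fam

open H667R3 Pool.Agent.W245.EB Pool.Agent.Y685 Pool.Agent.Y685.H2
open Pool.Agent.TH813.Rel (DF MK subset_cl rk_le_of_subset_cl mem_cl)

variable {U : Set ℂ} {Λ : ℂ → PeriodPair} {r s : ℕ}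

/-- independence modulo constants -/
def IndC (U : Set ℂ) (x : Fin s → ℂ → ℂ) : Prop :=
  ∀ (m : Fin s → ℤ) (c : ℂ), (∀ z ∈ U, ∑ k, (m k : ℂ) * x k z = c) → m = 0

theorem exists_den {n : ℕ} (q : Fin n → ℚ) : ∃ D : ℕ, 0 < D ∧ ∃ m : Fin n → ℤ, ∀ i,
    (m i : ℚ) = D * q i := by
  refine ⟨∏ i, (q i).den, Finset.prod_pos fun i _ => (q i).pos, fun i =>
    (q i).num * ∏ j ∈ Finset.univ.erase i, ((q j).den : ℤ), fun i => ?_⟩
  rw [← Finset.mul_prod_erase Finset.univ (fun i => (q i).den) (Finset.mem_univ i)]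
  push_cast
  have h := Rat.mul_den_eq_num (q i)
  linear_combination (-(∏ j ∈ Finset.univ.erase i, ((q j).den : ℚ))) * h

end Pool.Agent.Y776.Fam
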