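import Mathlib
import Pool.Agent.H73.G.R8.Y776.Fam.Fn
import Pool.Agent.H73.G.R8.Y776.Fam.Gen
import Pool.Agent.H73.G.R8.Y776.Fam.Third

/-!
# Families of lattices with points: the derivation at a generic point
-/

set_option autoImplicit false

open Filter Topology Set
open scoped PeriodPair

noncomputable section

namespace Pool.Agent.Y776.Fam

open H667R3 Pool.Agent.W245.EB Pool.Agent.TH813.Ell Pool.Agent.Y685 Pool.Agent.Y685.H2
open Pool.Agent.TH813.Rel (DF MK subset_cl rk_le_of_subset_cl mem_cl)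

variable {U : Set ℂ} {Λ : ℂ → PeriodPair} {r s q : ℕ}

/-- algebraic functions over a field -/
def AlgOver (F : IntermediateField ℚ ℂ) (U : Set ℂ) (f : ℂ → ℂ) : Prop :=
  ∃ P : MvPolynomial (Fin 2) ℂ, P ≠ 0 ∧ (∀ c ∈ P.coeffs, c ∈ F) ∧
    ∀ z ∈ U, MvPolynomial.eval ![z, f z] P = 0

/-- values of algebraic functions -/
theorem AlgOver.mem {F C : IntermediateField ℚ ℂ} (hFC : F ≤ C) {f : ℂ → ℂ} (hf : AlgOver F U f)
    {z₀ : ℂ} (hz : z₀ ∈ U) (htr : ¬ IsAlgebraic F z₀) : f z₀ ∈ clo C {z₀} := by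
  classical
  obtain ⟨P, hP0, hPF, hP⟩ := hf
  have h1 : f z₀ ∈ (MK F).closure {z₀} := by
    by_contra hcon
    have h0 : z₀ ∉ (MK F).closure ∅ := by
      intro h
      apply htr
      have h2 := mem_cl.1 h
      rw [Algebra.adjoin_empty] at h2
      have : Algebra.IsAlgebraic F (⊥ : Subalgebra F ℂ) := by
        refine ⟨fun x => ?_⟩
        obtain ⟨r, hr⟩ := Algebra.mem_bot.1 x.2
        have : x = algebraMap F (⊥ : Subalgebra F ℂ) r := Subtype.ext hr.symm
        rw [this]
        exact isAlgebraic_algebraMap r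
      exact h2.restrictScalars F
    have i1 : (MK F).Indep {z₀} := by
      have := ((MK F).empty_indep.notMem_closure_iff (Set.mem_univ _)).1 h0
      simpa using this.1
    obtain ⟨i2, i3⟩ := (i1.notMem_closure_iff (Set.mem_univ _)).1 hcon
    have i4 : ({f z₀, z₀} : Set ℂ) = Set.range ![z₀, f z₀] := by
      rw [Matrix.range_cons, Matrix.range_cons, Matrix.range_empty, Set.union_empty]
      ext x
      simp [or_comm]
    have i5 : AlgebraicIndependent F ![z₀, f z₀] := by
      apply indep_of_rank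
      rw [← i4, i2.eRk_eq_encard, Set.encard_pair (by simpa using i3)]
      norm_num
    obtain ⟨P', hP'⟩ : ∃ P' : MvPolynomial (Fin 2) F, MvPolynomial.map (algebraMap F ℂ) P' = P := by
      have h3 : P ∈ Set.range (MvPolynomial.map (σ := Fin 2) (algebraMap F ℂ)) := by
        rw [MvPolynomial.mem_range_map_iff_coeffs_subset]
        intro c hc
        exact ⟨⟨c, hPF c (Finset.mem_coe.1 hc)⟩, rfl⟩
      exact h3
    have h4 : MvPolynomial.aeval ![z₀, f z₀] P' = 0 := by
      rw [← hP z₀ hz, ← hP', MvPolynomial.eval_map, MvPolynomial.aeval_def]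
    have h5 := (algebraicIndependent_iff.1 i5) P' h4
    rw [h5, map_zero] at hP'
    exact hP0 hP'.symm
  intro δ hδ hS
  exact (mem_cl_iff ({z₀} : Set ℂ) (f z₀)).1 h1 δ (fun x hx => hδ x (hFC hx)) hS

section

variable {u : Fin r → ℂ → ℂ} {l : Fin s → ℂ → ℂ} {N : Fin q → Fin r → ℤ} {S : Fin q → ℂ → ℂ}
  {ε : ℂ}

/-- zeros of a countable family of functions -/
theorem countable_fam (hc : IsPreconnected U) {ι : Type} [Countable ι] (f : ι → ℂ → ℂ)
    (hf : ∀ i, AnalyticOnNhd ℂ (f i) U) (hne : ∀ i, ∃ z ∈ U, f i z ≠ 0) :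
    {z | z ∈ U ∧ ∃ i, f i z = 0}.Countable := by
  refine (Set.countable_iUnion (fun i => countable_zeros hc (hf i) (hne i))).mono ?_
  rintro z ⟨hz, i, hi⟩
  exact mem_iUnion.2 ⟨i, hz, hi⟩

end

end Pool.Agent.Y776.Fam
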