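import Mathlib
import Pool.Agent.H73.G.R8.Y776.Fam.PtB

/-!
# Families of lattices with points: independence of the functions, and their values
-/

set_option autoImplicit false

open Filter Topology Set
open scoped PeriodPair

noncomputable section

namespace Pool.Agent.Y776.Fam

open H667R3 Pool.Agent.W245.EB Pool.Agent.TH813.Ell Pool.Agent.Y685 Pool.Agent.Y685.H2
open Pool.Agent.Y124 (LocInd)

variable {U : Set ℂ} {Λ : ℂ → PeriodPair} {r s q : ℕ}

theorem exists_cf {T : Set ℂ} (hT : T.Countable) :
    ∃ F : IntermediateField ℚ ℂ, (F : Set ℂ).Countable ∧ T ⊆ F := by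
  let F : IntermediateField ℚ ℂ := (Subfield.closure T).toIntermediateField (fun q => by
    rw [eq_ratCast]
    exact SubfieldClass.ratCast_mem _ q)
  exact ⟨F, countable_closure hT, fun x hx => Subfield.subset_closure hx⟩

/-- open sets are not countable -/
theorem exists_notMem {B : Set ℂ} (hU : IsOpen U) (hne : U.Nonempty) (hB : B.Countable) :
    ∃ z ∈ U, z ∉ B := by
  have h1 : Dense (Bᶜ) := hB.dense_compl ℂ
  obtain ⟨z, hz, hz'⟩ := h1.inter_open_nonempty U hU hne
  exact ⟨z, hz, hz'⟩

section

variable {u : Fin r → ℂ → ℂ} {l : Fin s → ℂ → ℂ} {N : Fin q → Fin r → ℤ} {S : Fin q → ℂ → ℂ}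

end

end Pool.Agent.Y776.Fam
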